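import Mathlib
import Pool.Agent.U945.LA.Nine
import Pool.Agent.U945.LA.ExZ

/-!
# The nine numbers for all algebraic multiples

Let `β` be an irrational algebraic number, for instance `β = √2`. For an algebraic number `x ≠ 0`
consider the numbers

  `π + x e`, `π - x e`, `(π + x - 1) e`, `(π + x - 1) / e`, `(x π) ^ β`,
  `(x π ^ a e ^ (b + c π)) ^ (d e)`, `(x π ^ a e ^ (b + c π)) ^ (d π)`

with algebraic `a`, `b`, `c` and `d ≠ 0`. For `x = 1` and `β = √2` the nine numbers `π + e`, `π - e`,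
`π e`, `π / e`, `π ^ √2`, `e ^ e`, `π ^ e`, `π ^ π`, `e ^ (π ^ 2)` of the problem are among them.

(1) If one of them is algebraic, or, for the last two, of the form `e ^ w` with `w` in `LogForms`, for
some value of the power, then `x` is called exceptional (`Nine β`). At most five exceptional `x` are
multiplicatively independent. So for all prime numbers `x`, with at most five exceptions, all these
numbers are transcendental. There is an absolute constant `C` such that for all complex `a b ≠ 0` at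
most `C` pairs `(x, y)` of exceptional numbers satisfy `a x + b y = 1`.

(2) Let `z_1, …, z_s` be any complex numbers, and let `U` be a vector space of dimension `D` over the
algebraic numbers, which contains `1` and `π`. The algebraic numbers `x ≠ 0` for which some value of a
number `(x e ^ (a_1 z_1 + ⋯ + a_s z_s + b + c π)) ^ ξ` with algebraic `a_k`, `b`, `c` and transcendental
`ξ` in `U` is of the form `e ^ w` with `w` in `LogForms`, in particular if it is algebraic, contain at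
most `D (D + s - 1) - 1` multiplicatively independent ones, and at most `C ^ (D (D + s - 1))` pairs
`(x, y)` with `a x + b y = 1`.

(3) Let `A` be the union of these sets. For every algebraic subset `Z` of `G_m^d` over `ℂ` the points of
`Z` with coordinates in `A` are contained in finitely many cosets of algebraic subgroups which are
contained in `Z`; so they are finite in number if each coset contained in `Z` is finite, for instance if
`Z` is an irreducible curve which is not a coset.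

Ingredients: the hyperplane case of the linear subgroup theorem of Waldschmidt and Roy, Baker's theorem,
the theorem on the unit equation in groups of finite rank of algebraic numbers (Laurent), proved in
`Pool.Agent.U945.LA`, and for lines the theorem of Beukers and Schlickewei.
-/

set_option autoImplicit false

namespace Pool.Agent.Results.MP_a2f59b_nt.AlgebraicMultiples

open Pool.Agent.U945.LA (RkLe line_set pack nine_rank ExZ ExZ_rank Sm4 Fs Pw primes_enc)
open Pool.Agent.H301R2.SSE (QB mem_QB Lt Lt_log Lt_mul)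

/-- The linear combinations, with algebraic coefficients, of `1` and of logarithms of algebraic
numbers. If `e ^ w` is algebraic, then `w` is in `LogForms`. -/
noncomputable def LogForms : Submodule (algebraicClosure ℚ ℂ) ℂ :=
  Submodule.span (algebraicClosure ℚ ℂ) ({1} ∪ {z : ℂ | IsAlgebraic ℚ (Complex.exp z)})

/-- `l` is a logarithm of `x`, up to a rational multiple of `2 π i` -/
def IsLog (x : ℂˣ) (l : ℂ) : Prop := ∃ n : ℕ, 0 < n ∧ Complex.exp (n * l) = (x : ℂ) ^ n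

/-- `v` times some logarithm of `x π ^ a e ^ (b + c π)` is in `LogForms`, with algebraic `a`, `b`, `c`. -/
def PowerForm (x : ℂˣ) (v : ℂ) : Prop :=
  ∃ l a b c : ℂ, IsLog x l ∧ IsAlgebraic ℚ a ∧ IsAlgebraic ℚ b ∧ IsAlgebraic ℚ c ∧
    v * (l + a * Real.log Real.pi + b + c * Real.pi) ∈ LogForms

/-- The exceptional numbers for the nine numbers of the problem. -/
def Nine (β : ℂ) : Set ℂˣ :=
  {x | IsAlgebraic ℚ (x : ℂ) ∧ (IsAlgebraic ℚ ((Real.pi : ℂ) + x * Real.exp 1) ∨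
    IsAlgebraic ℚ ((Real.pi : ℂ) - x * Real.exp 1) ∨
    IsAlgebraic ℚ (((Real.pi : ℂ) + x - 1) * Real.exp 1) ∨
    IsAlgebraic ℚ (((Real.pi : ℂ) + x - 1) / Real.exp 1) ∨
    (∃ l, IsLog x l ∧ IsAlgebraic ℚ (Complex.exp (β * (l + Real.log Real.pi)))) ∨
    PowerForm x (Real.exp 1 : ℝ) ∨ PowerForm x Real.pi)}

/-- The exceptional numbers for the exponents in `U` and the numbers `z_k`: for some transcendental `ξ`
in `U`, `ξ` times some logarithm of `x e ^ (∑ a_k z_k + b + c π)` is in `LogForms`, with algebraic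
`a_k`, `b`, `c`. -/
def Exceptional {s : ℕ} (U : Submodule (algebraicClosure ℚ ℂ) ℂ) (z : Fin s → ℂ) : Set ℂˣ :=
  {x | IsAlgebraic ℚ (x : ℂ) ∧ ∃ ξ ∈ U, Transcendental ℚ ξ ∧ ∃ (l : ℂ) (a : Fin s → ℂ) (b c : ℂ),
    IsLog x l ∧ (∀ k, IsAlgebraic ℚ (a k)) ∧ IsAlgebraic ℚ b ∧ IsAlgebraic ℚ c ∧
    ξ * (l + ∑ k, a k * z k + b + c * Real.pi) ∈ LogForms}

/-- All the (real) numbers considered for `x > 0` are transcendental. -/
def AllTranscendental (β x : ℝ) : Prop :=
  Transcendental ℚ (Real.pi + x * Real.exp 1) ∧ Transcendental ℚ (Real.pi - x * Real.exp 1) ∧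
  Transcendental ℚ ((Real.pi + x - 1) * Real.exp 1) ∧
  Transcendental ℚ ((Real.pi + x - 1) / Real.exp 1) ∧ Transcendental ℚ ((x * Real.pi) ^ β) ∧
  ∀ a b c d : ℝ, IsAlgebraic ℚ a → IsAlgebraic ℚ b → IsAlgebraic ℚ c → IsAlgebraic ℚ d → d ≠ 0 →
    Transcendental ℚ ((x * Real.pi ^ a * Real.exp 1 ^ (b + c * Real.pi)) ^ (d * Real.exp 1)) ∧
    Transcendental ℚ ((x * Real.pi ^ a * Real.exp 1 ^ (b + c * Real.pi)) ^ (d * Real.pi))

/-- `A` contains at most `B` multiplicatively independent elements. -/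
def RankAtMost (A : Set ℂˣ) (B : ℕ) : Prop :=
  ∀ (n : ℕ) (X : Fin n → ℂˣ), (∀ j, X j ∈ A) → (∀ k : Fin n → ℤ, ∏ j, X j ^ k j = 1 → k = 0) → n ≤ B

/-- The coset of an algebraic subgroup of the torus: the `z` such that `z ^ m = y ^ m` for all `m` in
the finite set `M` of integral vectors. -/
def Coset {d : ℕ} (y : Fin d → ℂˣ) (M : Finset (Fin d → ℤ)) : Set (Fin d → ℂˣ) :=
  {z | ∀ m ∈ M, ∏ i, z i ^ m i = ∏ i, y i ^ m i}

/-- The algebraic subset of the torus defined by the polynomials `P j`. -/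
def Zeros {d s : ℕ} (P : Fin s → MvPolynomial (Fin d) ℂ) : Set (Fin d → ℂˣ) :=
  {z | ∀ j, MvPolynomial.eval (fun i => (z i : ℂ)) (P j) = 0}

theorem Nine_sub (β : ℂ) : Nine β ⊆ Sm4 ∪ ((Pw (Real.exp 1 : ℝ) (Real.log Real.pi : ℝ) ∪
    Pw Real.pi (Real.log Real.pi : ℝ)) ∪ Fs β (Real.log Real.pi : ℝ)) := by
  rintro x ⟨hx, h | h | h | h | ⟨l, hl, h⟩ | ⟨l, a, b, c, hl, ha, hb, hc, h⟩ |
    ⟨l, a, b, c, hl, ha, hb, hc, h⟩⟩
  · exact Or.inl ⟨hx, Or.inl h⟩
  · exact Or.inl ⟨hx, Or.inr (Or.inl h)⟩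
  · exact Or.inl ⟨hx, Or.inr (Or.inr (Or.inl h))⟩
  · exact Or.inl ⟨hx, Or.inr (Or.inr (Or.inr h))⟩
  · exact Or.inr (Or.inr ⟨hx, l, hl, h⟩)
  · exact Or.inr (Or.inl (Or.inl ⟨hx, l, hl, a, b, c, ha, hb, hc, h⟩))
  · exact Or.inr (Or.inl (Or.inr ⟨hx, l, hl, a, b, c, ha, hb, hc, h⟩))

theorem Exceptional_sub {s : ℕ} (U : Submodule (algebraicClosure ℚ ℂ) ℂ) (z : Fin s → ℂ) :
    Exceptional U z ⊆ ExZ U z := by
  rintro x ⟨hx, ξ, hξ, hξt, l, a, b, c, hl, ha, hb, hc, h⟩
  exact ⟨hx, l, hl, ξ, hξ, hξt, a, b, c, ha, hb, hc, h⟩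

theorem real_alg {x : ℝ} (h : IsAlgebraic ℚ x) : IsAlgebraic ℚ (x : ℂ) := h.algebraMap (A := ℂ)

theorem unit_log {x : ℝ} (hx : 0 < x) {u : ℂˣ} (hu : (u : ℂ) = x) :
    IsLog u (Real.log x : ℝ) := by
  refine ⟨1, one_pos, ?_⟩
  rw [Nat.cast_one, one_mul, pow_one, hu, ← Complex.ofReal_exp, Real.exp_log hx]

theorem power_form {x : ℝ} (hx : 0 < x) {u : ℂˣ} (hu : (u : ℂ) = x) {a b c β v : ℝ}
    (ha : IsAlgebraic ℚ a) (hb : IsAlgebraic ℚ b) (hc : IsAlgebraic ℚ c) (hβ : IsAlgebraic ℚ β)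
    (hβ0 : β ≠ 0)
    (h : IsAlgebraic ℚ ((x * Real.pi ^ a * Real.exp 1 ^ (b + c * Real.pi)) ^ (β * v))) :
    PowerForm u v := by
  refine ⟨(Real.log x : ℝ), a, b, c, unit_log hx hu, real_alg ha, real_alg hb, real_alg hc, ?_⟩
  have hpos : 0 < x * Real.pi ^ a * Real.exp 1 ^ (b + c * Real.pi) :=
    mul_pos (mul_pos hx (Real.rpow_pos_of_pos Real.pi_pos _))
      (Real.rpow_pos_of_pos (Real.exp_pos 1) _)
  have hlog : Real.log (x * Real.pi ^ a * Real.exp 1 ^ (b + c * Real.pi)) =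
      Real.log x + a * Real.log Real.pi + (b + c * Real.pi) := by
    rw [Real.log_mul (mul_pos hx (Real.rpow_pos_of_pos Real.pi_pos _)).ne'
      (Real.rpow_pos_of_pos (Real.exp_pos 1) _).ne',
      Real.log_mul hx.ne' (Real.rpow_pos_of_pos Real.pi_pos _).ne', Real.log_rpow Real.pi_pos,
      Real.log_rpow (Real.exp_pos 1), Real.log_exp, mul_one]
  rw [Real.rpow_def_of_pos hpos, hlog] at h
  have h1 := real_alg h
  rw [Complex.ofReal_exp] at h1
  have h2 := Lt_mul (real_alg hβ).inv (Lt_log h1)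
  have e1 : ((β : ℝ) : ℂ)⁻¹ *
      (((Real.log x + a * Real.log Real.pi + (b + c * Real.pi)) * (β * v) : ℝ) : ℂ) =
      (v : ℂ) * ((Real.log x : ℝ) + a * Real.log Real.pi + b + c * Real.pi) := by
    have : ((β : ℝ) : ℂ) ≠ 0 := by exact_mod_cast hβ0
    push_cast
    field_simp
    ring
  rw [e1] at h2
  exact h2

theorem nine_of_not {β x : ℝ} (hx : 0 < x) (hxa : IsAlgebraic ℚ x) {u : ℂˣ} (hu : (u : ℂ) = x)
    (h : ¬ AllTranscendental β x) : u ∈ Nine β := by
  refine ⟨by rw [hu]; exact real_alg hxa, ?_⟩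
  unfold AllTranscendental at h
  simp only [not_and_or] at h
  rcases h with h | h | h | h | h | h
  · left
    have h1 := real_alg (not_not.1 h)
    rw [hu]
    push_cast at h1 ⊢
    exact h1
  · right; left
    have h1 := real_alg (not_not.1 h)
    rw [hu]
    push_cast at h1 ⊢
    exact h1
  · right; right; left
    have h1 := real_alg (not_not.1 h)
    rw [hu]
    push_cast at h1 ⊢
    exact h1
  · right; right; right; left
    have h1 := real_alg (not_not.1 h)
    rw [hu]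
    push_cast at h1 ⊢
    exact h1
  · right; right; right; right; left
    refine ⟨(Real.log x : ℝ), unit_log hx hu, ?_⟩
    have h1 := real_alg (not_not.1 h)
    rw [Real.rpow_def_of_pos (mul_pos hx Real.pi_pos), Real.log_mul hx.ne' Real.pi_pos.ne',
      Complex.ofReal_exp] at h1
    have e1 : (β : ℂ) * ((Real.log x : ℝ) + (Real.log Real.pi : ℝ)) =
        (((Real.log x + Real.log Real.pi) * β : ℝ) : ℂ) := by
      push_cast
      ring
    rw [e1]
    exact h1
  · right; right; right; right; right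
    push Not at h
    obtain ⟨a, b, c, d, ha, hb, hc, hd, hd0, h⟩ := h
    by_cases h1 : Transcendental ℚ
        ((x * Real.pi ^ a * Real.exp 1 ^ (b + c * Real.pi)) ^ (d * Real.exp 1))
    · exact Or.inr (power_form hx hu ha hb hc hd hd0 (not_not.1 (h h1)))
    · exact Or.inl (power_form hx hu ha hb hc hd hd0 (not_not.1 h1))

theorem units_indep {n : ℕ} {x : Fin n → ℝ} {u : Fin n → ℂˣ} (hu : ∀ i, (u i : ℂ) = x i)
    (hx : ∀ k : Fin n → ℤ, ∏ i, x i ^ k i = 1 → k = 0) (k : Fin n → ℤ)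
    (hk : ∏ i, u i ^ k i = 1) : k = 0 := by
  apply hx
  have h1 := congrArg (fun z : ℂˣ => (z : ℂ)) hk
  simp only [Units.coe_prod, Units.val_one, Units.val_zpow_eq_zpow_val] at h1
  rw [Finset.prod_congr rfl fun i _ => by rw [hu i]] at h1
  exact_mod_cast h1

theorem irr {β : ℝ} (hβ : Irrational β) (q : ℚ) : (β : ℂ) ≠ q := by
  intro h
  apply hβ
  exact ⟨q, by exact_mod_cast h.symm⟩

theorem six {β : ℝ} (hβ : IsAlgebraic ℚ β) (hβ' : Irrational β) {x : Fin 6 → ℝ}
    (hx : ∀ i, 0 < x i) (hxa : ∀ i, IsAlgebraic ℚ (x i))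
    (hmi : ∀ k : Fin 6 → ℤ, ∏ i, x i ^ k i = 1 → k = 0) : ∃ i, AllTranscendental β (x i) := by
  by_contra hcon
  push Not at hcon
  have hne : ∀ i, ((x i : ℝ) : ℂ) ≠ 0 := fun i => by exact_mod_cast (hx i).ne'
  have h1 := (nine_rank (real_alg hβ) (irr hβ') (Real.log Real.pi : ℝ)).mono (Nine_sub β) 6
    (fun i => Units.mk0 _ (hne i)) (fun i => nine_of_not (hx i) (hxa i) rfl (hcon i))
    (units_indep (fun i => rfl) hmi)
  omega

theorem primes {β : ℝ} (hβ : IsAlgebraic ℚ β) (hβ' : Irrational β) :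
    {p : ℕ | p.Prime ∧ ¬ AllTranscendental β p}.encard ≤ 5 :=
  primes_enc (n := 5) fun _ h1 h2 h3 => six hβ hβ' h1 h2 h3

/-- **The nine numbers for all algebraic multiples.** -/
theorem result :
    -- (1) real numbers
    (∀ β : ℝ, IsAlgebraic ℚ β → Irrational β →
      (∀ x : Fin 6 → ℝ, (∀ i, 0 < x i ∧ IsAlgebraic ℚ (x i)) →
        (∀ k : Fin 6 → ℤ, ∏ i, x i ^ k i = 1 → k = 0) → ∃ i, AllTranscendental β (x i)) ∧
      {p : ℕ | p.Prime ∧ ¬ AllTranscendental β p}.encard ≤ 5 ∧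
      ∀ (x : ℝ) (u : ℂˣ), 0 < x → IsAlgebraic ℚ x → (u : ℂ) = x → u ∉ Nine β →
        AllTranscendental β x) ∧
    ∃ C : ℕ,
      ∀ β : ℂ, IsAlgebraic ℚ β → (∀ q : ℚ, β ≠ q) →
      -- (1) complex numbers
      RankAtMost (Nine β) 5 ∧
      (∀ a b : ℂ, a ≠ 0 → b ≠ 0 → ∀ E : Finset (ℂˣ × ℂˣ),
        (∀ e ∈ E, e.1 ∈ Nine β ∧ e.2 ∈ Nine β ∧ a * e.1 + b * e.2 = 1) → E.card ≤ C) ∧
      -- (2) spaces of exponents
      ∀ (U : Submodule (algebraicClosure ℚ ℂ) ℂ) (D s : ℕ) (z : Fin s → ℂ),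
        FiniteDimensional (algebraicClosure ℚ ℂ) U → Module.finrank (algebraicClosure ℚ ℂ) U = D →
        (1 : ℂ) ∈ U → (Real.pi : ℂ) ∈ U →
        RankAtMost (Exceptional U z) (D * (D + s - 1) - 1) ∧
        (∀ a b : ℂ, a ≠ 0 → b ≠ 0 → ∀ E : Finset (ℂˣ × ℂˣ),
          (∀ e ∈ E, e.1 ∈ Exceptional U z ∧ e.2 ∈ Exceptional U z ∧ a * e.1 + b * e.2 = 1) →
            E.card ≤ C ^ (D * (D + s - 1))) ∧
        -- (3) subvarieties of tori
        ∀ (A : Set ℂˣ) (d : ℕ), A = Nine β ∪ Exceptional U z →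
          (∀ (s : ℕ) (P : Fin s → MvPolynomial (Fin d) ℂ),
            ∃ T : Finset ((Fin d → ℂˣ) × Finset (Fin d → ℤ)),
              (∀ t ∈ T, (∀ i, t.1 i ∈ A) ∧ Coset t.1 t.2 ⊆ Zeros P) ∧
              ∀ x : Fin d → ℂˣ, (∀ i, x i ∈ A) → x ∈ Zeros P → ∃ t ∈ T, x ∈ Coset t.1 t.2) ∧
          (∀ (s : ℕ) (P : Fin s → MvPolynomial (Fin d) ℂ),
            (∀ y M, Coset y M ⊆ Zeros P → (Coset y M).Finite) →
              {x | (∀ i, x i ∈ A) ∧ x ∈ Zeros P}.Finite) ∧
          (∀ a : Fin d → ℂ, {x : Fin d → ℂˣ | (∀ i, x i ∈ A) ∧ ∑ i, a i * (x i : ℂ) = 1 ∧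
            ∀ J : Finset (Fin d), J.Nonempty → ∑ i ∈ J, a i * (x i : ℂ) ≠ 0}.Finite) := by
  obtain ⟨C, hC1, hC⟩ := line_set
  refine ⟨fun β hβ hβ' => ⟨fun x hx hmi => six hβ hβ' (fun i => (hx i).1) (fun i => (hx i).2) hmi,
    primes hβ hβ', fun x u hx hxa hu h => by_contra fun hcon => h (nine_of_not hx hxa hu hcon)⟩,
    C ^ 6, fun β hβ hβ' => ?_⟩
  have hnine : RkLe (Nine β) 5 := (nine_rank hβ hβ' (Real.log Real.pi : ℝ)).mono (Nine_sub β)
  refine ⟨hnine, fun a b ha hb E hE => hC (Nine β) 5 hnine a b ha hb E hE, ?_⟩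
  intro U D s z hfd hD h1 hpi
  have := hfd
  obtain ⟨hpos, hU'⟩ := ExZ_rank U z h1 hpi
  rw [hD] at hpos hU'
  have hU : RkLe (Exceptional U z) (D * (D + s - 1) - 1) := hU'.mono (Exceptional_sub U z)
  refine ⟨hU, fun a b ha hb E hE => ?_, fun A d hA => ?_⟩
  · have h2 := hC _ _ hU a b ha hb E hE
    refine h2.trans ?_
    have h4 : 1 ≤ D * (D + s - 1) := Nat.mul_pos (by omega) (by omega)
    rw [← pow_mul]
    exact Nat.pow_le_pow_right hC1 (by omega)
  · rw [hA]
    refine pack (A := Nine β ∪ Exceptional U z) (fun x hx => ?_) (hnine.union hU) d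
    rcases hx with hx | hx
    · exact hx.1
    · exact hx.1

end Pool.Agent.Results.MP_a2f59b_nt.AlgebraicMultiples
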