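import Pool.Agent.U829.CF.Fin
import Pool.Agent.R473.JC.Pairs

set_option autoImplicit false

/-!
# The continued fractions of `π + e`, `π - e`, `π e`, `π / e`

A real number is rational or a quadratic irrational if and only if its continued fraction `[a_0; a_1, a_2, ...]` is
finite or eventually periodic, that is, if a finite automaton which reads the partial quotients and announces the
next one makes only finitely many errors. We prove that at most one of the four numbers `π + e`, `π - e`, `π e`,
`π / e` has a continued fraction that can be cut into few periodic pieces or predicted with few errors, at every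
scale and up to every place. Here `π` may be replaced by any real number `t` different from `0`, `e`, `-e`.

A piece is a single partial quotient of any size, or a word `U V V ... V V'` (`U` may be empty, `V'` is a beginning
of `V`) such that the denominators of the convergents grow by a factor of at most `e^R` up to the end of the first
`V`. Let `u ≠ v` be two of the four numbers, `q_n`, `q'_n` the denominators of their convergents. There is a
constant `A` such that for all `R ≥ 1` and all `m`, `n`, `m'`, `n'` the following is true.

* If the partial quotients of `u` with the indices from `m` to `n - 1` can be cut into `p` pieces, and those of `v`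
  from `m'` to `n' - 1` into `p'` pieces, then
  `min (log q_n) (log q'_{n'}) ≤ (R + max (log q_m) (log q'_{m'})) A^(p + p')`.
  So between the heights `e^T` and `e^W` of the denominators at least `c log (W / (T + R))` pieces are needed for the
  two numbers together; for a fixed piece size `R` the number of the pieces up to the height `e^W` is at least
  `c log W - C` for one of them.
* If two automata with `S` states, whose announcements are at most `B`, read the partial quotients of `u` and of `v`
  and make `E` and `E'` errors at these places then the same is true with `R = S log (B + 3)` and the exponent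
  `E + E' + 1`. If they read the first `n` partial quotients then `n ≤ S log (B + 3) A^(E + E' + 1)`.
* Hence for all `S`, `B` and `n` there is at most one exception among the four numbers: for the other three every
  such automaton satisfies `n ≤ S log (B + 3) A^(2 E + 1)`, that is, it makes at least `c log n - C` errors among the
  first `n` partial quotients.
* If `u` is algebraic (for instance rational) then all this is true for `v` alone.

The same is proved for all pairs `u`, `v` of real numbers such that `e` or `π` or the logarithm of a positive rational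
number `≠ 1` is algebraic over `ℤ[u, v]`.

Proof. Let `D_i = q_i x - p_i`. If `a_{i+k} = a_i` for `r ≤ i < n - k` then the determinant of the vectors
`(D_{i-1}, D_i)`, `(D_{i+k-1}, D_{i+k})` does not depend on `i`, up to the sign. For `i = r` it is the value at `x` of a
quadratic polynomial with integer coefficients of size `q_{r+k}^2`, for `i = n - k` it is at most `2 / q_n`. The
values of two such polynomials, at `u` and at `v`, cannot both be very small by the joint transcendence measure of
the starting library (`Pool.Agent.R356.joint`, `Pool.Agent.R473.JC.four_t`). So the periods of calm of the two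
numbers do not overlap, and the number of the pieces follows by induction. The automata are reduced to pieces by the
pigeonhole principle.
-/

namespace Pool.Agent.Results.MP_a2f59b_nt.ContinuedFractions

open Pool.Agent.U829.CF

/-- the four numbers, with `t` in the place of `π` -/
noncomputable def num (t : ℝ) : Fin 4 → ℝ :=
  ![t + Real.exp 1, t - Real.exp 1, t * Real.exp 1, t / Real.exp 1]

/-- an upper bound for the place `n` in terms of the number of the errors before `n`, for all automata with `S`
states whose announcements are at most `B` -/
def Hard (x A : ℝ) (S B n : ℕ) : Prop :=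
  ∀ (δ : Fin S → ℤ → Fin S) (g : Fin S → ℤ) (s : Fin S), (∀ t, g t ≤ B) →
    (n : ℝ) ≤ S * Real.log (B + 3) * A ^ (2 * (wrong δ g s x 1 n).ncard + 1)

theorem joint_of {u v : ℝ} (h : Pool.Agent.R356.JointR u v) : ∀ D, Joint u v D := fun D => h D

theorem pair {u v : ℝ} (h : Pool.Agent.R356.JointR u v) : ∃ A : ℝ, 1 < A ∧ Irregular u v A :=
  irregular (joint_of h) (joint_of h.symm)

/-- all but at most one of the numbers are hard -/
theorem three {x : Fin 4 → ℝ} {A : ℝ} (hA : 1 < A) (h : ∀ i j, i ≠ j → Irregular (x i) (x j) A)
    (S B n : ℕ) : ∃ i₀ : Fin 4, ∀ i, i ≠ i₀ → Hard (x i) A S B n := by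
  by_cases hrat : ∃ i, ¬ Irrational (x i)
  · obtain ⟨i₀, hi₀⟩ := hrat
    refine ⟨i₀, fun i hi δ g s hg => ?_⟩
    have halg : IsAlgebraic ℤ (x i₀) := by
      unfold Irrational at hi₀
      push Not at hi₀
      obtain ⟨q, hq⟩ := hi₀
      rw [← hq]
      refine ⟨Polynomial.C (q.den : ℤ) * Polynomial.X - Polynomial.C q.num, ?_, ?_⟩
      · intro h0
        have h1 := congrArg (fun P : Polynomial ℤ => P.coeff 1) h0
        simp only [Polynomial.coeff_sub, Polynomial.coeff_C_mul, Polynomial.coeff_X,
          Polynomial.coeff_C, Polynomial.coeff_zero] at h1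
        norm_num at h1
      · simp only [map_sub, map_mul, Polynomial.aeval_C, Polynomial.aeval_X]
        have h1 : (q.den : ℝ) * q = q.num := by exact_mod_cast Rat.den_mul_eq_num q
        simp only [algebraMap_int_eq, eq_intCast, Int.cast_natCast]
        rw [h1, sub_self]
    have h1 := ((h i₀ i (Ne.symm hi)).2.2.2.2.1 halg S B δ g s hg).2 n
    refine h1.trans ?_
    have h2 := (size_S s B).1
    have h3 : A ^ ((wrong δ g s (x i) 1 n).ncard + 1) ≤ A ^ (2 * (wrong δ g s (x i) 1 n).ncard + 1) :=
      pow_le_pow_right₀ hA.le (by omega)
    gcongr
  · push Not at hrat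
    by_contra hcon
    push Not at hcon
    obtain ⟨i, -, hi⟩ := hcon 0
    obtain ⟨j, hji, hj⟩ := hcon i
    unfold Hard at hi hj
    push Not at hi hj
    obtain ⟨δ, g, s, hg, h1⟩ := hi
    obtain ⟨δ', g', s', hg', h2⟩ := hj
    have h3 := ((h i j (Ne.symm hji)).2.1 (hrat i) (hrat j) S B δ δ' g g' s s' hg hg').2 n
    have h4 := (size_S s B).1
    obtain ⟨E, hE⟩ : ∃ E, E = (wrong δ g s (x i) 1 n).ncard := ⟨_, rfl⟩
    obtain ⟨E', hE'⟩ : ∃ E', E' = (wrong δ' g' s' (x j) 1 n).ncard := ⟨_, rfl⟩
    rw [← hE] at h1 h3
    rw [← hE'] at h2 h3
    have h5 : A ^ (E + E' + 1) ≤ max (A ^ (2 * E + 1)) (A ^ (2 * E' + 1)) := by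
      rcases le_total E E' with h6 | h6
      · exact (pow_le_pow_right₀ hA.le (by omega)).trans (le_max_right _ _)
      · exact (pow_le_pow_right₀ hA.le (by omega)).trans (le_max_left _ _)
    have h6 : S * Real.log ((B : ℝ) + 3) * A ^ (E + E' + 1) < n := by
      rcases le_max_iff.1 h5 with h7 | h7
      · refine lt_of_le_of_lt ?_ h1
        gcongr
      · refine lt_of_le_of_lt ?_ h2
        gcongr
    linarith

/-- **Theorem.**
(1) Let `t` be a real number different from `0`, `e` and `-e`, for instance `t = π`. There is a constant `A` such
that any two of the numbers `t + e`, `t - e`, `t e`, `t / e` are `Irregular`: their continued fractions cannot both be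
cut into few periodic pieces and cannot both be predicted by automata with few errors, and if one of them is
algebraic then this is true for the other one alone. For all `S`, `B` and `n` all but at most one of the four
numbers are `Hard`.
(2) The same is true for all pairs of real numbers `u`, `v` such that `e` or `π` or the logarithm of a positive
rational number different from `1` is algebraic over the ring `ℤ[u, v]`. -/
theorem result :
    (∀ t : ℝ, t ≠ 0 → t ≠ Real.exp 1 → t ≠ - Real.exp 1 → ∃ A : ℝ, 1 < A ∧
      (∀ i j : Fin 4, i ≠ j → Irregular (num t i) (num t j) A) ∧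
      ∀ S B n : ℕ, ∃ i₀ : Fin 4, ∀ i, i ≠ i₀ → Hard (num t i) A S B n) ∧
    (Real.pi ≠ 0 ∧ Real.pi ≠ Real.exp 1 ∧ Real.pi ≠ - Real.exp 1) ∧
    ∀ x : ℝ, (x = Real.exp 1 ∨ x = Real.pi ∨ ∃ q : ℚ, 0 < q ∧ q ≠ 1 ∧ x = Real.log q) →
      ∀ u v : ℝ, IsAlgebraic (Algebra.adjoin ℤ ({u, v} : Set ℝ)) x →
        ∃ A : ℝ, 1 < A ∧ Irregular u v A := by
  refine ⟨fun t h0 h1 h2 => ?_, ⟨Real.pi_ne_zero, ?_, ?_⟩, fun x hx u v h => ?_⟩
  · have hpair : ∀ p : Fin 4 × Fin 4, ∃ A : ℝ, 1 < A ∧ (p.1 ≠ p.2 →
        Irregular (num t p.1) (num t p.2) A) := by
      intro p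
      by_cases hp : p.1 = p.2
      · exact ⟨2, by norm_num, fun h => absurd hp h⟩
      · obtain ⟨A, hA, h⟩ := pair (Pool.Agent.R473.JC.four_t t h0 h1 h2 p.1 p.2 hp)
        exact ⟨A, hA, fun _ => h⟩
    choose A hA hI using hpair
    obtain ⟨M, hM⟩ : ∃ M : ℝ, ∀ p, A p ≤ M := by
      obtain ⟨M, hM⟩ := (Set.finite_range A).bddAbove
      exact ⟨M, fun p => hM ⟨p, rfl⟩⟩
    have hM1 : 1 < M := lt_of_lt_of_le (hA (0, 0)) (hM (0, 0))
    have hall : ∀ i j : Fin 4, i ≠ j → Irregular (num t i) (num t j) M := fun i j hij =>
      (hI (i, j) hij).mono (hA (i, j)) (hM (i, j))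
    exact ⟨M, hM1, hall, fun S B n => three hM1 hall S B n⟩
  · have g1 := Real.pi_gt_three
    have g2 := Real.exp_one_lt_d9
    intro h
    linarith
  · have g1 := Real.pi_pos
    have g2 := Real.exp_pos 1
    intro h
    linarith
  · exact pair (Pool.Agent.R473.JC.jointR_of_alg x (Pool.Agent.R473.JC.measT_three x hx) u v h)

end Pool.Agent.Results.MP_a2f59b_nt.ContinuedFractions
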