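import Pool.Agent.R356.Aff
import Pool.Agent.N743.Alg

/-!
# `π + e`, `π - e`, `π e`, `π / e`: the scales of the algebraic approximations

Let `t` be any real number, for instance `t = π`, and consider the numbers `A(e) t + B(e)` with
integer polynomials `A`, `B`, and the numbers `t e^k` and `t + b e^k` with integers `k` and nonzero
rational numbers `b`.

A number `u` is near at the scale `X` (with parameters `d` and `θ`) if some nonzero integer
polynomial of degree at most `d` with coefficients at most `X^θ` has at `u` a value at most `1 / X`.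
For every degree `d` and every `m > 1` the following scale dichotomy is proved, for all small `θ > 0`,
for every finite family of these numbers that satisfies a nondegeneracy condition (for instance all
numbers `t e^k` and `t + b e^k ≠ 0` with distinct indices, `k ≠ 0` in the second case).

* At every large scale at most one of the numbers is near.
* If one of the numbers is algebraic of degree at most `d`, it is near at all large scales and the
  others are near at no large scale.
* Otherwise every large scale `X` at which one of the numbers is near is followed by a scale `Z ≥ X`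
  such that only this number is near between `X` and `Z` and none of the numbers is near between
  `Z` and `Z^m`; and there are arbitrarily large `Z` such that none of the numbers is near between
  `Z` and `Z^m`.

Proof.  For `u = A₁(e) t + B₁(e)` and `v = A₂(e) t + B₂(e)` the number `e` is a zero of the polynomial
`A₂ (u - B₁) - A₁ (v - B₂)`, so there is a joint measure for `u` and `v`
(`Pool.Agent.R356.jointR_of_rel`, which uses the transcendence measure of `e`); the engine of the
scale dichotomy for algebraic approximations is `Pool.Agent.N743.dichotomy_alg`.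
-/

set_option autoImplicit false

namespace Pool.Agent.Results.MP_a2f59b_nt.ScalesOfAffineForms

open Finset Polynomial
open Pool.Agent.N743 (Dichotomy)
open Pool.Agent.R356 (JointR jointR_of_rel ev3 ev3_eq)
open Pool.Agent.TH456.TM (measT_e evR σx)

/-- `u` is algebraic of degree at most `d` -/
def AlgDeg (d : ℕ) (u : ℝ) : Prop := ∃ P : ℤ[X], P ≠ 0 ∧ P.natDegree ≤ d ∧ aeval u P = 0

/-- some nonzero integer polynomial of degree at most `d` with coefficients at most `X ^ θ` in
absolute value has at `u` a value at most `1 / X` in absolute value -/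
def AlgNear (d : ℕ) (θ X u : ℝ) : Prop :=
  ∃ P : ℤ[X], P ≠ 0 ∧ P.natDegree ≤ d ∧ (∀ k, |((P.coeff k : ℤ) : ℝ)| ≤ X ^ θ) ∧
    |aeval u P| ≤ X⁻¹

/-- For every `d` and every `m > 1` there is `θ₀ > 0` such that for all positive `θ ≤ θ₀` the scale
dichotomy holds for the numbers `x i` (good: algebraic of degree at most `d`; near at the scale `X`:
see `AlgNear`). -/
def Scales {ι : Type} (x : ι → ℝ) : Prop :=
  ∀ (d : ℕ) (m : ℝ), 1 < m → ∃ θ₀ : ℝ, 0 < θ₀ ∧ ∀ θ : ℝ, 0 < θ → θ ≤ θ₀ →
    Dichotomy (fun i => AlgDeg d (x i)) (fun X i => AlgNear d θ X (x i)) m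

lemma scales_of_joint {ι : Type} [Finite ι] (x : ι → ℝ)
    (h : ∀ i j, i ≠ j → JointR (x i) (x j)) : Scales x :=
  fun d m hm => Pool.Agent.N743.dichotomy_alg x h d m hm

/-- the numbers `t e^k` (indexed by `(none, k)`) and `t + b e^k` (indexed by `(some b, k)`) -/
noncomputable def num (t : ℝ) : Option ℚ × ℤ → ℝ
  | (none, k) => t * Real.exp 1 ^ k
  | (some b, k) => t + b * Real.exp 1 ^ k

/-- the index is admissible: in the second case `b ≠ 0` and `k ≠ 0` -/
def Adm (a : Option ℚ × ℤ) : Prop := ∀ b, a.1 = some b → b ≠ 0 ∧ a.2 ≠ 0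

/-- a linear relation over `ℤ[e]` which is not identically satisfied gives a joint measure -/
theorem joint_of_lin (u v : ℝ) (α β γ : ℤ[X])
    (h0 : aeval (Real.exp 1) γ + u * aeval (Real.exp 1) α + v * aeval (Real.exp 1) β = 0)
    (hne : ∃ t : ℝ, aeval t γ + u * aeval t α + v * aeval t β ≠ 0) : JointR u v := by
  obtain ⟨t, hne⟩ := hne
  refine jointR_of_rel _ measT_e u v ?_
  have hcc : ∀ (x : ℝ) (f : ℤ[X]), aeval ((x : ℝ) : ℂ) f = ((aeval x f : ℝ) : ℂ) := fun x f =>
    aeval_algebraMap_apply ℂ x f
  have hev : ∀ x : ℝ, ev3 u v x (γ.map ((C : ℤ[X] →+* ℤ[X][X]).comp C) +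
      C (C X) * α.map ((C : ℤ[X] →+* ℤ[X][X]).comp C) + C X * β.map ((C : ℤ[X] →+* ℤ[X][X]).comp C)) =
      ((aeval x γ + u * aeval x α + v * aeval x β : ℝ) : ℂ) := by
    intro x
    have h1 : ∀ f : ℤ[X], ev3 u v x (f.map ((C : ℤ[X] →+* ℤ[X][X]).comp C)) =
        ((aeval x f : ℝ) : ℂ) := by
      intro f
      rw [← hcc, ev3_eq, Polynomial.map_map, eval_map, aeval_def]
      congr 1
      exact RingHom.ext_int _ _
    have h2 : ev3 u v x (C (C X)) = (u : ℂ) := by simp [ev3, evR, σx]
    have h3 : ev3 u v x (C X) = (v : ℂ) := by simp [ev3, evR]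
    rw [map_add, map_add, map_mul, map_mul, h1, h1, h1, h2, h3]
    push_cast
    ring
  refine ⟨γ.map ((C : ℤ[X] →+* ℤ[X][X]).comp C) +
      C (C X) * α.map ((C : ℤ[X] →+* ℤ[X][X]).comp C) +
      C X * β.map ((C : ℤ[X] →+* ℤ[X][X]).comp C), ?_, (t : ℂ), ?_⟩
  · rw [hev (Real.exp 1), h0]
    simp
  · rw [hev t]
    exact_mod_cast hne

/-- two affine forms `A(e) t + B(e)` -/
theorem joint_forms (t : ℝ) (A B A' B' : ℤ[X])
    (h : ∃ x : ℝ, aeval x A' * (aeval (Real.exp 1) A * t + aeval (Real.exp 1) B - aeval x B) ≠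
      aeval x A * (aeval (Real.exp 1) A' * t + aeval (Real.exp 1) B' - aeval x B')) :
    JointR (aeval (Real.exp 1) A * t + aeval (Real.exp 1) B)
      (aeval (Real.exp 1) A' * t + aeval (Real.exp 1) B') := by
  obtain ⟨x, hx⟩ := h
  refine joint_of_lin _ _ A' (-A) (A * B' - A' * B) ?_ ⟨x, fun h => hx ?_⟩
  · simp only [map_sub, map_mul, map_neg]
    ring
  · simp only [map_sub, map_mul, map_neg] at h
    linear_combination h

/-- a nonzero real polynomial has a nonzero value -/
lemma exists_ne (F : ℝ[X]) (h : F ≠ 0) : ∃ t : ℝ, F.eval t ≠ 0 := by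
  by_contra hcon
  push Not at hcon
  exact h (Polynomial.funext fun t => by rw [hcon t, eval_zero])

/-- four monomials -/
lemma joint_four (u v : ℝ) (a b c d : ℤ) (i j k l : ℕ)
    (h0 : (a : ℝ) * u * Real.exp 1 ^ i + b * v * Real.exp 1 ^ j + c * Real.exp 1 ^ k +
      d * Real.exp 1 ^ l = 0)
    (hne : C ((a : ℝ) * u) * X ^ i + C ((b : ℝ) * v) * X ^ j + C (c : ℝ) * X ^ k +
      C (d : ℝ) * X ^ l ≠ (0 : ℝ[X])) :
    JointR u v := by
  obtain ⟨t, ht⟩ := exists_ne _ hne
  refine joint_of_lin u v (C a * X ^ i) (C b * X ^ j) (C c * X ^ k + C d * X ^ l) ?_ ⟨t, ?_⟩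
  · simp only [map_mul, map_pow, map_add, aeval_X, aeval_C]
    simp only [eq_intCast]
    linear_combination h0
  · simp only [map_mul, map_pow, map_add, aeval_X, aeval_C]
    simp only [eval_add, eval_mul, eval_C, eval_pow, eval_X] at ht
    simp only [eq_intCast]
    intro h
    exact ht (by linear_combination h)

lemma zpow_nat (N : ℕ) (j : ℤ) (h : 0 ≤ (N : ℤ) + j) :
    Real.exp 1 ^ ((N : ℤ) + j).toNat = Real.exp 1 ^ N * Real.exp 1 ^ j := by
  have he : Real.exp 1 ≠ 0 := (Real.exp_pos 1).ne'
  rw [← zpow_natCast, Int.toNat_of_nonneg h, zpow_add₀ he, zpow_natCast]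

/-- all pairs of the family -/
theorem joint_num (t : ℝ) (a b : Option ℚ × ℤ) (ha : Adm a) (hb : Adm b) (hab : a ≠ b)
    (hna : num t a ≠ 0) (hnb : num t b ≠ 0) : JointR (num t a) (num t b) := by
  have he : Real.exp 1 ≠ 0 := (Real.exp_pos 1).ne'
  have key : ∀ (j : ℤ) (c : ℚ) (k : ℤ), c ≠ 0 → k ≠ 0 → num t (some c, k) ≠ 0 →
      JointR (num t (none, j)) (num t (some c, k)) := by
    intro j c k hc hk hn
    obtain ⟨N, hN⟩ : ∃ N : ℕ, N = j.natAbs + k.natAbs := ⟨_, rfl⟩
    refine joint_four _ _ (-c.den) c.den (-c.num) 0 N ((N : ℤ) + j).toNat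
      ((N : ℤ) + (j + k)).toNat 0 ?_ ?_
    · rw [zpow_nat N j (by omega), zpow_nat N (j + k) (by omega), zpow_add₀ he]
      have h1 : (c.num : ℝ) = c * c.den := by exact_mod_cast (Rat.mul_den_eq_num c).symm
      push_cast
      rw [h1]
      simp only [num]
      ring
    · intro h
      have hd : (c.den : ℝ) ≠ 0 := by exact_mod_cast c.den_ne_zero
      have hcn : (c.num : ℝ) ≠ 0 := by exact_mod_cast Rat.num_ne_zero.2 hc
      by_cases hcase : j ≠ 0 ∧ j + k = 0
      · have h2 := congrArg (fun p : ℝ[X] => p.coeff ((N : ℤ) + j).toNat) h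
        simp only [coeff_add, coeff_C_mul, coeff_X_pow, coeff_zero] at h2
        rw [if_neg (by omega), if_pos trivial, if_neg (by omega)] at h2
        push_cast at h2
        simp only [mul_zero, mul_one, zero_add, add_zero, zero_mul] at h2
        exact mul_ne_zero hd hn h2
      · have h2 := congrArg (fun p : ℝ[X] => p.coeff ((N : ℤ) + (j + k)).toNat) h
        simp only [coeff_add, coeff_C_mul, coeff_X_pow, coeff_zero] at h2
        rw [if_neg (by omega), if_neg (by omega), if_pos trivial] at h2
        push_cast at h2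
        simp only [mul_zero, mul_one, zero_add, add_zero, zero_mul] at h2
        exact hcn (by linarith)
  obtain ⟨a1, j⟩ := a
  obtain ⟨b1, k⟩ := b
  rcases a1 with _ | x <;> rcases b1 with _ | y
  · have hjk : j ≠ k := fun h => hab (by rw [h])
    obtain ⟨N, hN⟩ : ∃ N : ℕ, N = j.natAbs + k.natAbs := ⟨_, rfl⟩
    refine joint_four _ _ 1 (-1) 0 0 ((N : ℤ) + k).toNat ((N : ℤ) + j).toNat 0 0 ?_ ?_
    · rw [zpow_nat N j (by omega), zpow_nat N k (by omega)]
      push_cast
      simp only [num]
      ring
    · intro h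
      have h2 := congrArg (fun p : ℝ[X] => p.coeff ((N : ℤ) + k).toNat) h
      simp only [coeff_add, coeff_C_mul, coeff_X_pow, coeff_zero] at h2
      rw [if_pos trivial, if_neg (by omega)] at h2
      push_cast at h2
      simp only [mul_zero, mul_one, one_mul, add_zero, zero_mul] at h2
      exact hna h2
  · exact key j y k (hb y rfl).1 (hb y rfl).2 hnb
  · exact (key k x j (ha x rfl).1 (ha x rfl).2 hna).symm
  · obtain ⟨hx, hj⟩ := ha x rfl
    obtain ⟨hy, hk⟩ := hb y rfl
    obtain ⟨N, hN⟩ : ∃ N : ℕ, N = j.natAbs + k.natAbs := ⟨_, rfl⟩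
    have hxd : (x.den : ℝ) ≠ 0 := by exact_mod_cast x.den_ne_zero
    have hyd : (y.den : ℝ) ≠ 0 := by exact_mod_cast y.den_ne_zero
    have h1 : (x.num : ℝ) = x * x.den := by exact_mod_cast (Rat.mul_den_eq_num x).symm
    have h2 : (y.num : ℝ) = y * y.den := by exact_mod_cast (Rat.mul_den_eq_num y).symm
    have hx' : (x : ℝ) ≠ 0 := by exact_mod_cast hx
    refine joint_four _ _ (x.den * y.den) (-(x.den * y.den)) (-(x.num * y.den)) (y.num * x.den) N N
      ((N : ℤ) + j).toNat ((N : ℤ) + k).toNat ?_ ?_
    · rw [zpow_nat N j (by omega), zpow_nat N k (by omega)]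
      push_cast
      rw [h1, h2]
      simp only [num]
      ring
    · intro h
      have h3 := congrArg (fun p : ℝ[X] => p.coeff ((N : ℤ) + j).toNat) h
      simp only [coeff_add, coeff_C_mul, coeff_X_pow, coeff_zero] at h3
      push_cast at h3
      rw [h1, h2] at h3
      by_cases hjk : j = k
      · subst hjk
        have hNj : ¬ ((N : ℤ) + j).toNat = N := by omega
        simp only [if_neg hNj, if_true, mul_zero, mul_one, zero_add] at h3
        have hxy : (x : ℝ) ≠ y := by
          intro h4
          exact hab (by rw [show x = y by exact_mod_cast h4])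
        apply hxy
        have h4 : (x.den : ℝ) * y.den * (y - x) = 0 := by linear_combination h3
        rcases mul_eq_zero.1 h4 with h5 | h5
        · exact absurd h5 (mul_ne_zero hxd hyd)
        · linarith
      · have hNj : ¬ ((N : ℤ) + j).toNat = N := by omega
        have hNk : ¬ ((N : ℤ) + j).toNat = ((N : ℤ) + k).toNat := by omega
        simp only [if_neg hNj, if_neg hNk, mul_zero, mul_one, zero_add, add_zero] at h3
        have h4 : (x : ℝ) * x.den * y.den = 0 := by linear_combination -h3
        exact mul_ne_zero (mul_ne_zero hx' hxd) hyd h4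

/-- **`π + e`, `π - e`, `π e`, `π / e`: the scales of the algebraic approximations.**

(1) The scale dichotomy holds for finitely many numbers `A(e) t + B(e)`, with `t` a real number and
integer polynomials `A`, `B`, if for any two of them the relation
`A'(x) (u - B(x)) = A(x) (u' - B'(x))`, which holds for `x = e`, does not hold for all real `x`.

(2) It holds for finitely many nonzero numbers `t e^k` and `t + b e^k`, with integers `k` and
nonzero rational numbers `b`, if `k ≠ 0` in the second case and the indices are distinct.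

(3) It holds for the four numbers `π + e`, `π - e`, `π e`, `π / e`, and for any finite subset of
the set of the numbers `π e^k` and `π + b e^k`, where `k ≠ 0` and `b > 0` in the second case. -/
theorem result :
    (∀ (t : ℝ) (n : ℕ) (A B : Fin n → ℤ[X]),
      (∀ i j, i ≠ j → ∃ x : ℝ, aeval x (A j) *
        (aeval (Real.exp 1) (A i) * t + aeval (Real.exp 1) (B i) - aeval x (B i)) ≠
        aeval x (A i) *
        (aeval (Real.exp 1) (A j) * t + aeval (Real.exp 1) (B j) - aeval x (B j))) →
      Scales fun i => aeval (Real.exp 1) (A i) * t + aeval (Real.exp 1) (B i)) ∧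
    (∀ (t : ℝ) (n : ℕ) (b : Fin n → Option ℚ × ℤ), Function.Injective b →
      (∀ i, Adm (b i)) → (∀ i, num t (b i) ≠ 0) → Scales fun i => num t (b i)) ∧
    Scales ![Real.pi + Real.exp 1, Real.pi - Real.exp 1, Real.pi * Real.exp 1,
      Real.pi / Real.exp 1] ∧
    (∀ (n : ℕ) (b : Fin n → Option ℚ × ℤ), Function.Injective b →
      (∀ i, Adm (b i)) → (∀ i y, (b i).1 = some y → 0 < y) →
      Scales fun i => num Real.pi (b i)) := by
  have part2 : ∀ (t : ℝ) (n : ℕ) (b : Fin n → Option ℚ × ℤ), Function.Injective b →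
      (∀ i, Adm (b i)) → (∀ i, num t (b i) ≠ 0) → Scales fun i => num t (b i) :=
    fun t n b hb h hn => scales_of_joint _ fun i j hij =>
      joint_num t (b i) (b j) (h i) (h j) (fun e => hij (hb e)) (hn i) (hn j)
  have hE := Real.exp_pos 1
  have hE2 := Real.exp_one_lt_d9
  have hpi := Real.pi_gt_three
  refine ⟨fun t n A B h => scales_of_joint _ fun i j hij => joint_forms t _ _ _ _ (h i j hij),
    part2, ?_, fun n b hb h hpos => part2 Real.pi n b hb h fun i => ?_⟩
  · have h := part2 Real.pi 4 ![(some 1, 1), (some (-1), 1), (none, 1), (none, -1)]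
      (by
        intro i j h
        have h1 : (1 : ℚ) ≠ -1 := by norm_num
        fin_cases i <;> fin_cases j <;> simp_all [Prod.ext_iff, eq_comm])
      (by
        intro i
        fin_cases i <;> simp [Adm])
      (by
        intro i
        fin_cases i
        · show Real.pi + ((1 : ℚ) : ℝ) * Real.exp 1 ^ (1 : ℤ) ≠ 0
          rw [zpow_one]
          push_cast
          exact ne_of_gt (by linarith)
        · show Real.pi + ((-1 : ℚ) : ℝ) * Real.exp 1 ^ (1 : ℤ) ≠ 0
          rw [zpow_one]
          push_cast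
          exact ne_of_gt (by linarith)
        · show Real.pi * Real.exp 1 ^ (1 : ℤ) ≠ 0
          positivity
        · show Real.pi * Real.exp 1 ^ (-1 : ℤ) ≠ 0
          positivity)
    have e : (fun i => num Real.pi ((![(some 1, 1), (some (-1), 1), (none, 1), (none, -1)] :
        Fin 4 → Option ℚ × ℤ) i)) =
        ![Real.pi + Real.exp 1, Real.pi - Real.exp 1, Real.pi * Real.exp 1,
          Real.pi / Real.exp 1] := by
      funext i
      fin_cases i
      · show Real.pi + ((1 : ℚ) : ℝ) * Real.exp 1 ^ (1 : ℤ) = Real.pi + Real.exp 1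
        rw [zpow_one]; push_cast; ring
      · show Real.pi + ((-1 : ℚ) : ℝ) * Real.exp 1 ^ (1 : ℤ) = Real.pi - Real.exp 1
        rw [zpow_one]; push_cast; ring
      · show Real.pi * Real.exp 1 ^ (1 : ℤ) = Real.pi * Real.exp 1
        rw [zpow_one]
      · show Real.pi * Real.exp 1 ^ (-1 : ℤ) = Real.pi / Real.exp 1
        rw [zpow_neg, zpow_one, div_eq_mul_inv]
    rwa [e] at h
  · rcases hbi : b i with ⟨_ | y, k⟩
    · show Real.pi * Real.exp 1 ^ k ≠ 0
      positivity
    · have hy := hpos i y (by rw [hbi])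
      have hy' : (0 : ℝ) < y := by exact_mod_cast hy
      show Real.pi + y * Real.exp 1 ^ k ≠ 0
      positivity

end Pool.Agent.Results.MP_a2f59b_nt.ScalesOfAffineForms
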